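import Pool.Agent.W206.ND.Stm
import Pool.Agent.W922.Dis.VDC

/-!
# VC: exponential sums along arithmetic progressions
-/

set_option autoImplicit false

namespace Pool.Agent.W554.ND.VC

open Filter Topology Finset
open Pool.Agent.W206.ND
open Pool.Agent.W922.Dis (av vdc)

theorem ee_add (s t : ℝ) : ee (s + t) = ee s * ee t := by
  unfold ee
  rw [← Complex.exp_add]
  congr 1
  push_cast
  ring

theorem norm_ee (t : ℝ) : ‖ee t‖ = 1 := by
  unfold ee
  have : (2 * Real.pi * Complex.I * (t : ℂ) : ℂ) = ((2 * Real.pi * t : ℝ) : ℂ) * Complex.I := by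
    push_cast; ring
  rw [this, Complex.norm_exp_ofReal_mul_I]

theorem ee_nat (n : ℕ) : ee (n : ℝ) = 1 := by
  unfold ee
  rw [Complex.exp_eq_one_iff]
  exact ⟨n, by push_cast; ring⟩

theorem ee_eq_one {t : ℝ} (h : ee t = 1) : ∃ n : ℤ, t = n := by
  unfold ee at h
  rw [Complex.exp_eq_one_iff] at h
  obtain ⟨n, hn⟩ := h
  refine ⟨n, ?_⟩
  have h1 : (2 * Real.pi * Complex.I : ℂ) ≠ 0 := by
    simp [Real.pi_ne_zero]
  have h2 : (2 * Real.pi * Complex.I : ℂ) * (t : ℂ) = (2 * Real.pi * Complex.I) * (n : ℂ) := by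
    rw [hn]; ring
  have h3 := mul_left_cancel₀ h1 h2
  exact_mod_cast h3

theorem conj_ee (t : ℝ) : (starRingEnd ℂ) (ee t) = ee (-t) := by
  unfold ee
  rw [← Complex.exp_conj]
  congr 1
  rw [map_mul, map_mul, map_mul, Complex.conj_I, Complex.conj_ofReal, Complex.conj_ofReal, map_ofNat]
  push_cast
  ring

/-- the twisted sequence -/
noncomputable def u (b : ℕ) (x : ℝ) (t : ℤ) (L k n : ℕ) : ℂ :=
  ee (t * x * (b : ℝ) ^ n) * ee ((k : ℝ) * n / L)

theorem u_avg (b : ℕ) (x : ℝ) (hb : 2 ≤ b) (hx : ∀ t : ℤ, t ≠ 0 → AV b x t) (t : ℤ) (ht : t ≠ 0)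
    (L k : ℕ) : Tendsto (av (u b x t L k)) atTop (𝓝 0) := by
  refine vdc (fun n => ?_) (fun h hh => ?_)
  · unfold u
    rw [norm_mul, norm_ee, norm_ee, mul_one]
  · have ht' : t * ((b : ℤ) ^ h - 1) ≠ 0 := by
      refine mul_ne_zero ht ?_
      have h1 : (1 : ℤ) < (b : ℤ) ^ h := by
        have : 1 < b ^ h := Nat.one_lt_pow (by omega) (by omega)
        exact_mod_cast this
      omega
    have h2 := hx _ ht'
    unfold AV at h2
    have h3 := h2.const_mul (ee ((k : ℝ) * h / L))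
    rw [mul_zero] at h3
    refine h3.congr fun N => ?_
    unfold av
    rw [mul_div_assoc', mul_sum]
    congr 1
    refine sum_congr rfl fun n _ => ?_
    unfold u
    beta_reduce
    rw [map_mul, conj_ee, conj_ee]
    have e1 : (((t * ((b : ℤ) ^ h - 1) : ℤ)) : ℝ) * x * (b : ℝ) ^ n =
        t * x * (b : ℝ) ^ (n + h) + -(t * x * (b : ℝ) ^ n) := by
      push_cast
      ring
    have e2 : (k : ℝ) * h / L = (k : ℝ) * ((n + h : ℕ) : ℝ) / L + -((k : ℝ) * n / L) := by
      push_cast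
      ring
    rw [e1, e2, ee_add, ee_add]
    ring

theorem sum_twist (L n : ℕ) (hL : 1 ≤ L) :
    ∑ k ∈ range L, ee ((k : ℝ) * n / L) = if L ∣ n then (L : ℂ) else 0 := by
  have hL0 : (L : ℝ) ≠ 0 := by positivity
  have hpow : ∀ k : ℕ, ee ((k : ℝ) * n / L) = ee ((n : ℝ) / L) ^ k := by
    intro k
    induction k with
    | zero => simp [ee]
    | succ k ih =>
      rw [pow_succ, ← ih, ← ee_add]
      congr 1
      push_cast
      ring
  rw [sum_congr rfl (fun k _ => hpow k)]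
  split_ifs with h
  · obtain ⟨m, rfl⟩ := h
    have h1 : (((L * m : ℕ) : ℝ) / L) = (m : ℝ) := by
      push_cast
      field_simp
    rw [h1, ee_nat]
    simp
  · have h1 : ee ((n : ℝ) / L) ≠ 1 := by
      intro h2
      obtain ⟨m, hm⟩ := ee_eq_one h2
      apply h
      have h3 : (n : ℝ) = L * m := by
        rw [← hm]
        field_simp
      have h4 : (n : ℤ) = L * m := by exact_mod_cast h3
      have h5 : (L : ℤ) ∣ (n : ℤ) := ⟨m, h4⟩
      exact_mod_cast h5
    have h2 := mul_geom_sum (ee ((n : ℝ) / L)) L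
    have h3 : ee ((n : ℝ) / L) ^ L = 1 := by
      rw [← hpow L]
      have : (L : ℝ) * n / L = (n : ℝ) := by field_simp
      rw [this, ee_nat]
    rw [h3, sub_self] at h2
    rcases mul_eq_zero.1 h2 with h4 | h4
    · exact absurd (sub_eq_zero.1 h4) h1
    · exact h4

theorem sum_prog (f : ℕ → ℂ) (L : ℕ) (hL : 1 ≤ L) (N : ℕ) :
    ∑ n ∈ range (L * N), (if L ∣ n then f n else 0) = ∑ i ∈ range N, f (L * i) := by
  induction N with
  | zero => simp
  | succ N ih =>
    rw [sum_range_succ, ← ih, Nat.mul_succ, sum_range_add]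
    congr 1
    rw [sum_eq_single_of_mem 0 (mem_range.2 (by omega))]
    · rw [add_zero, if_pos (dvd_mul_right _ _)]
    · intro r hr hr0
      rw [if_neg]
      intro h
      have h1 : L ∣ r := (Nat.dvd_add_right (dvd_mul_right L N)).1 h
      have h2 := Nat.le_of_dvd (by omega) h1
      rw [mem_range] at hr
      omega

theorem main : S_VC := by
  intro b x hb hx t L c ht hL
  obtain ⟨T, hT⟩ : ∃ T : ℤ, T = t * (b : ℤ) ^ c := ⟨_, rfl⟩
  have hT0 : T ≠ 0 := by
    rw [hT]
    refine mul_ne_zero ht (pow_ne_zero _ ?_)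
    have : b ≠ 0 := by omega
    exact_mod_cast this
  have hL0 : (L : ℂ) ≠ 0 := by
    have : L ≠ 0 := by omega
    exact_mod_cast this
  have hLN : Tendsto (fun N : ℕ => L * N) atTop atTop :=
    tendsto_id.const_mul_atTop' (by omega)
  have h1 : Tendsto (fun N : ℕ => ∑ k ∈ range L, av (u b x T L k) (L * N)) atTop (𝓝 0) := by
    have := tendsto_finsetSum (range L) (fun k _ => (u_avg b x hb hx T hT0 L k).comp hLN)
    simpa using this
  refine h1.congr fun N => ?_
  unfold av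
  rw [← sum_div, sum_comm]
  have h2 : ∀ n, ∑ k ∈ range L, u b x T L k n =
      if L ∣ n then (L : ℂ) * ee (T * x * (b : ℝ) ^ n) else 0 := by
    intro n
    unfold u
    rw [← mul_sum, sum_twist L n hL]
    split_ifs
    · ring
    · ring
  rw [sum_congr rfl (fun n _ => h2 n), sum_prog (fun n => (L : ℂ) * ee (T * x * (b : ℝ) ^ n)) L hL,
    ← mul_sum]
  have h3 : ∀ i : ℕ, ee (T * x * (b : ℝ) ^ (L * i)) = ee (t * (x * (b : ℝ) ^ (L * i + c))) := by
    intro i
    congr 1
    rw [hT]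
    push_cast
    rw [pow_add]
    ring
  rw [sum_congr rfl (fun i _ => h3 i)]
  push_cast
  rw [mul_div_mul_left _ _ hL0]

end Pool.Agent.W554.ND.VC
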